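import Mathlib
import Pool.Agent.H.MP_514792_al.Num

set_option autoImplicit false

namespace Pool.Agent.Results.MP_514792_al.Q1

open Pool.Agent.H.MP_514792_al

theorem result : ∃ (G : Type) (_ : Group G) (S : Finset G),
    Subgroup.closure (S : Set G) = ⊤ ∧
    (∀ g : G, g ≠ 1 → ∃ N : Subgroup G, N.Normal ∧ N.FiniteIndex ∧ g ∉ N) ∧
    (∀ d : ℕ, 1 ≤ d → Prec (fun n => (n : ℝ) ^ d) (fun n => rfGrowth S n) ∧
      ¬ Prec (fun n => rfGrowth S n) fun n => (n : ℝ) ^ d) ∧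
    Prec (fun n => rfGrowth S n) (fun n => Real.exp n) ∧
    ¬ Prec (fun n => Real.exp n) fun n => rfGrowth S n :=
  ⟨_, inferInstance, gens d1 s1, gens_top _ _, rf (gens_top _ _) ups1, fun d _ => inter.1 d, inter.2⟩

end Pool.Agent.Results.MP_514792_al.Q1
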